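import Pool.Agent.H73.PHS.Stmts

/-!
Row ALF of the board `phs` (MP_e1af46): the form `dbar ((1 - χ) g)`.
-/

set_option autoImplicit false

open Set Filter Topology MeasureTheory Metric

namespace Pool.PHS

section alf

variable {n : ℕ}

lemma alf_congr (k : Fin n) {u v : Cn n → ℂ} {z : Cn n} (h : u =ᶠ[𝓝 z] v) :
    dbar k u z = dbar k v z := by
  unfold dbar
  rw [h.fderiv_eq]

lemma alf_zero (k : Fin n) {u : Cn n → ℂ} {z : Cn n} {c : ℂ} (h : u =ᶠ[𝓝 z] fun _ => c) :
    dbar k u z = 0 := by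
  rw [alf_congr k h]
  unfold dbar
  rw [fderiv_fun_const]
  simp

lemma alf_mul (k : Fin n) {u v : Cn n → ℂ} {z : Cn n} (hu : DifferentiableAt ℝ u z)
    (hv : DifferentiableAt ℝ v z) :
    dbar k (fun y => u y * v y) z = u z * dbar k v z + v z * dbar k u z := by
  unfold dbar
  rw [fderiv_fun_mul hu hv]
  simp only [ContinuousLinearMap.add_apply, ContinuousLinearMap.smul_apply, smul_eq_mul]
  ring

lemma alf_neg (k : Fin n) {u : Cn n → ℂ} {z : Cn n} :
    dbar k (fun y => -u y) z = -dbar k u z := by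
  unfold dbar
  rw [fderiv_fun_neg]
  simp only [ContinuousLinearMap.neg_apply]
  ring

lemma alf_one_sub (k : Fin n) {u : Cn n → ℂ} {z : Cn n} :
    dbar k (fun y => 1 - u y) z = -dbar k u z := by
  unfold dbar
  rw [fderiv_const_sub]
  simp only [ContinuousLinearMap.neg_apply]
  ring

/-- `dbar` of a smooth function is smooth. -/
lemma alf_smooth {X : Cn n → ℂ} (hX : ContDiff ℝ 3 X) (k : Fin n) :
    ContDiff ℝ 2 (dbar k X) := by
  have h1 : ContDiff ℝ 2 (fderiv ℝ X) := hX.fderiv_right (m := 2) (by norm_num)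
  unfold dbar
  exact (h1.clm_apply contDiff_const).add (contDiff_const.mul (h1.clm_apply contDiff_const))

/-- The mixed `dbar` derivatives commute. -/
lemma alf_symm {X : Cn n → ℂ} (hX : ContDiff ℝ 3 X) (k l : Fin n) (z : Cn n) :
    dbar k (dbar l X) z = dbar l (dbar k X) z := by
  have h1 : ContDiff ℝ 2 (fderiv ℝ X) := hX.fderiv_right (m := 2) (by norm_num)
  have hd : DifferentiableAt ℝ (fderiv ℝ X) z := (h1.differentiable (by norm_num)) z
  have hsym : IsSymmSndFDerivAt ℝ X z :=
    (hX.contDiffAt).isSymmSndFDerivAt (by rw [minSmoothness_of_isRCLikeNormedField]; norm_num)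
  have hform : ∀ (j : Fin n) (v : Cn n), fderiv ℝ (dbar j X) z v =
      fderiv ℝ (fderiv ℝ X) z v (Pi.single j 1) +
        Complex.I * fderiv ℝ (fderiv ℝ X) z v (Pi.single j Complex.I) := by
    intro j v
    have e1 : DifferentiableAt ℝ (fun y => fderiv ℝ X y (Pi.single j (1 : ℂ))) z :=
      hd.clm_apply (differentiableAt_const _)
    have e2 : DifferentiableAt ℝ (fun y => fderiv ℝ X y (Pi.single j Complex.I)) z :=
      hd.clm_apply (differentiableAt_const _)
    have e3 : dbar j X = fun y => fderiv ℝ X y (Pi.single j (1 : ℂ)) +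
        Complex.I * fderiv ℝ X y (Pi.single j Complex.I) := rfl
    rw [e3, fderiv_fun_add e1 (e2.const_mul _), fderiv_const_mul e2,
      fderiv_clm_apply hd (differentiableAt_const _),
      fderiv_clm_apply hd (differentiableAt_const _)]
    simp
  have s1 := hsym.eq (Pi.single k (1 : ℂ)) (Pi.single l (1 : ℂ))
  have s2 := hsym.eq (Pi.single k (1 : ℂ)) (Pi.single l Complex.I)
  have s3 := hsym.eq (Pi.single k Complex.I) (Pi.single l (1 : ℂ))
  have s4 := hsym.eq (Pi.single k Complex.I) (Pi.single l Complex.I)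
  have u1 : dbar k (dbar l X) z = fderiv ℝ (dbar l X) z (Pi.single k 1) +
      Complex.I * fderiv ℝ (dbar l X) z (Pi.single k Complex.I) := rfl
  have u2 : dbar l (dbar k X) z = fderiv ℝ (dbar k X) z (Pi.single l 1) +
      Complex.I * fderiv ℝ (dbar k X) z (Pi.single l Complex.I) := rfl
  rw [u1, u2, hform, hform, hform, hform, s1, s2, s3, s4]
  ring

end alf

theorem ALF_thm (hSMO : SMOStmt) (hCRH : CRHStmt) : ALFStmt := by
  classical
  intro n Ω L N g χ hΩ hL hLN hN hNΩ hg hχ hsupp hts hone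
  set X : Cn n → ℂ := fun z => (χ z : ℂ) with hXdef
  have hX : ContDiff ℝ 3 X := Complex.ofRealCLM.contDiff.comp hχ
  have hUo : IsOpen (Ω \ L) := hΩ.sdiff hL.isClosed
  obtain ⟨-, -, hg2⟩ := hSMO n ℂ g (Ω \ L) hUo hg
  have hgAt : ∀ z ∈ Ω \ L, ContDiffAt ℝ 2 g z := fun z hz =>
    (hg2 z hz).contDiffAt (hUo.mem_nhds hz)
  have hgd : ∀ z ∈ Ω \ L, DifferentiableAt ℝ g z := fun z hz =>
    (hgAt z hz).differentiableAt (by norm_num)
  have hgbar : ∀ z ∈ Ω \ L, ∀ k, dbar k g z = 0 := fun z hz =>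
    ((hCRH n g z).1 ((hg z hz).differentiableAt (hUo.mem_nhds hz))).2
  have hXd : ∀ z, DifferentiableAt ℝ X z := fun z => (hX.differentiable (by norm_num)) z
  have hXN : ∀ z ∈ N, ∀ k, dbar k X z = 0 := by
    intro z hz k
    refine alf_zero (c := 1) k ?_
    filter_upwards [hN.mem_nhds hz] with y hy
    simp [hXdef, hone y hy]
  have hXT : ∀ z, z ∉ tsupport χ → ∀ k, dbar k X z = 0 := by
    intro z hz k
    refine alf_zero (c := 0) k ?_
    filter_upwards [(isClosed_tsupport χ).isOpen_compl.mem_nhds hz] with y hy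
    simp [hXdef, image_eq_zero_of_notMem_tsupport hy]
  have hin : ∀ z, z ∉ N → z ∈ tsupport χ → z ∈ Ω \ L := fun z h1 h2 =>
    ⟨hts h2, fun h3 => h1 (hLN h3)⟩
  set h : Cn n → ℂ := fun z => if z ∈ Ω \ L then (1 - X z) * g z else 0 with hh
  set α : Fin n → Cn n → ℂ := fun k z => if z ∈ Ω \ L then -(g z * dbar k X z) else 0 with hα
  have hα0 : ∀ k z, (z ∈ N ∨ z ∉ tsupport χ) → α k z = 0 := by
    intro k z hz
    simp only [hα]
    split_ifs with h2
    · rcases hz with hz | hz
      · rw [hXN z hz, mul_zero, neg_zero]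
      · rw [hXT z hz, mul_zero, neg_zero]
    · rfl
  have hαev : ∀ k z, (z ∈ N ∨ z ∉ tsupport χ) → α k =ᶠ[𝓝 z] fun _ => (0 : ℂ) := by
    intro k z hz
    rcases hz with hz | hz
    · filter_upwards [hN.mem_nhds hz] with y hy
      exact hα0 k y (Or.inl hy)
    · filter_upwards [(isClosed_tsupport χ).isOpen_compl.mem_nhds hz] with y hy
      exact hα0 k y (Or.inr hy)
  have hαU : ∀ k, ∀ z ∈ Ω \ L, α k =ᶠ[𝓝 z] fun y => -(g y * dbar k X y) := by
    intro k z hz
    filter_upwards [hUo.mem_nhds hz] with y hy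
    simp only [hα, if_pos hy]
  refine ⟨h, α, ?_, ?_, ?_, ?_, ?_, ?_⟩
  · intro k
    rw [contDiff_iff_contDiffAt]
    intro z
    by_cases hz : z ∈ N ∨ z ∉ tsupport χ
    · exact contDiffAt_const.congr_of_eventuallyEq (hαev k z hz)
    · push Not at hz
      have hzU := hin z hz.1 hz.2
      refine ContDiffAt.congr_of_eventuallyEq ?_ (hαU k z hzU)
      exact (((hgAt z hzU).of_le (by norm_num)).mul
        (((alf_smooth hX k).contDiffAt).of_le (by norm_num))).neg
  · intro k
    exact HasCompactSupport.intro hsupp.isCompact (fun z hz => hα0 k z (Or.inr hz))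
  · intro k z hz
    exact hα0 k z (Or.inr hz)
  · intro k l z
    by_cases hz : z ∈ N ∨ z ∉ tsupport χ
    · rw [alf_zero k (hαev l z hz), alf_zero l (hαev k z hz)]
    · push Not at hz
      have hzU := hin z hz.1 hz.2
      have hDl : DifferentiableAt ℝ (dbar l X) z :=
        ((alf_smooth hX l).differentiable (by norm_num)) z
      have hDk : DifferentiableAt ℝ (dbar k X) z :=
        ((alf_smooth hX k).differentiable (by norm_num)) z
      rw [alf_congr k (hαU l z hzU), alf_congr l (hαU k z hzU), alf_neg, alf_neg,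
        alf_mul k (hgd z hzU) hDl, alf_mul l (hgd z hzU) hDk, hgbar z hzU k, hgbar z hzU l,
        alf_symm hX k l z]
      ring
  · intro z hz
    by_cases hzN : z ∈ N
    · have hev : h =ᶠ[𝓝 z] fun _ => (0 : ℂ) := by
        filter_upwards [hN.mem_nhds hzN] with y hy
        simp only [hh]
        split_ifs with h2
        · simp [hXdef, hone y hy]
        · rfl
      refine ⟨(differentiableAt_const (0 : ℂ)).congr_of_eventuallyEq hev, fun k => ?_⟩
      rw [alf_zero k hev, hα0 k z (Or.inl hzN)]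
    · have hzU : z ∈ Ω \ L := ⟨hz, fun h3 => hzN (hLN h3)⟩
      have hev : h =ᶠ[𝓝 z] fun y => (1 - X y) * g y := by
        filter_upwards [hUo.mem_nhds hzU] with y hy
        simp only [hh, if_pos hy]
      have hd1 : DifferentiableAt ℝ (fun y => 1 - X y) z := (hXd z).const_sub 1
      refine ⟨(hd1.mul (hgd z hzU)).congr_of_eventuallyEq hev, fun k => ?_⟩
      rw [alf_congr k hev, alf_mul k hd1 (hgd z hzU), hgbar z hzU k, alf_one_sub]
      simp only [hα, if_pos hzU]
      ring
  · intro z hz hzT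
    have hχ0 : χ z = 0 := image_eq_zero_of_notMem_tsupport hzT
    have hzL : z ∉ L := by
      intro h3
      have := hone z (hLN h3)
      rw [hχ0] at this
      exact zero_ne_one this
    simp only [hh, if_pos (show z ∈ Ω \ L from ⟨hz, hzL⟩)]
    simp [hXdef, hχ0]

end Pool.PHS
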